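import Pool.Agent.H354.BG.Stm

set_option autoImplicit false
set_option linter.unusedSectionVars false

/-! Project BG (helper354), task RUN: the word of a syllable acts like the syllable. -/

namespace Pool.Agent.H671.BG.RUN

open Pool.Agent.H354.BG
open Pool.Agent.H482R3.EA (W inv ev PP xx evF cond1 cond2 Syl gOf Sys St Near InD Adm Act)
open Pool.Agent.H482R3.EB (tot wp alt rels AR gR TR Tame Symm alt_length)

section

variable (D : Dat) (U : Finset (Fin D.r)) (b : Fin D.r) (h : SysOK D U b)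
  (A : Act (sysX D U b h))

/-- the sign of a letter -/
def sg {G : Type} [Group G] (x : G) (b : Bool) : G := if b then x else x⁻¹

lemma sg_eq {G : Type} [Group G] (x : G) (b : Bool) : sg x b = x ^ (if b then (1 : ℤ) else -1) := by
  cases b <;> simp [sg]

lemma lt_eq (v : Fin D.n) (s : Bool) : lt D (v, s) = sg (gR D.m v) s := by
  cases s <;> rfl

lemma rhoP_lt (v : Fin D.n) (s : Bool) : rhoP D b (lt D (v, s)) = sg (rhoP D b (gR D.m v)) s := by
  rw [lt_eq, sg_eq, sg_eq, map_zpow]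

/-- action of the block line -/
noncomputable def aB (ω : A.Ω) (C : D.A ⧸ H0 D U b) (y : par D {b}) : A.Ω :=
  A.act ω (Sum.inl C : Ln D U b) y

/-- action of the cross line `(v, w, C)` -/
noncomputable def aL (ω : A.Ω) (v w : Fin D.n) (hc : okL D U b v w) (C : D.A ⧸ Hw D U b w)
    (y : FreeGroup (Fin (kk D v w))) : A.Ω :=
  A.act ω (Sum.inr ⟨(⟨(v, w), hc⟩ : LI D U b), C⟩ : Ln D U b) y

lemma aB_one (ω : A.Ω) (C : D.A ⧸ H0 D U b) : aB D U b h A ω C 1 = ω := A.act_one ω _

lemma aB_mul (ω : A.Ω) (C : D.A ⧸ H0 D U b) (y y' : par D {b}) :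
    aB D U b h A (aB D U b h A ω C y) C y' = aB D U b h A ω C (y * y') :=
  A.act_mul ω (Sum.inl C : Ln D U b) y y'

lemma aL_one (ω : A.Ω) (v w : Fin D.n) (hc : okL D U b v w) (C) :
    aL D U b h A ω v w hc C 1 = ω := A.act_one ω _

lemma aL_mul (ω : A.Ω) (v w : Fin D.n) (hc : okL D U b v w) (C) (y y') :
    aL D U b h A (aL D U b h A ω v w hc C y) v w hc C y' = aL D U b h A ω v w hc C (y * y') :=
  A.act_mul ω (Sum.inr ⟨(⟨(v, w), hc⟩ : LI D U b), C⟩ : Ln D U b) y y'

lemma aB_eq_aL (ω : A.Ω) (v w : Fin D.n) (hc : okL D U b v w) (g : D.A) (s : Bool) :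
    aB D U b h A ω (QuotientGroup.mk g) (rhoP D b (lt D (v, s))) =
      aL D U b h A ω v w hc (QuotientGroup.mk g)
        (sg (xx _ (eg D (D.β w) (((QuotientGroup.mk g : D.A ⧸ Hw D U b w).out)⁻¹ *
          (QuotientGroup.mk g : D.A ⧸ H0 D U b).out))) s) := by
  have := A.act_pt ω (Sum.inl (QuotientGroup.mk g) : Ln D U b)
    (Sum.inr ⟨(⟨(v, w), hc⟩ : LI D U b), QuotientGroup.mk g⟩ : Ln D U b)
    ((QuotientGroup.mk g, ⟨v, hc.1⟩) : Pt D U b) (if s then (1 : ℤ) else -1) rfl
    ⟨rfl, g, rfl, rfl⟩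
  rw [rhoP_lt, sg_eq, sg_eq]
  exact this

/-- the representative of the point in the exponent -/
lemma eg_out (v w : Fin D.n) (hc : okL D U b v w) (x g : D.A) :
    eg D (D.β w) (x * (QuotientGroup.mk g : D.A ⧸ H0 D U b).out) = eg D (D.β w) (x * g) := by
  have h1 : (QuotientGroup.mk ((QuotientGroup.mk g : D.A ⧸ H0 D U b).out) : D.A ⧸ H0 D U b) =
      QuotientGroup.mk g := Quotient.out_eq' _
  rw [QuotientGroup.eq] at h1
  have h2 := eg_H0 D U b hc h1
  rw [eg_mul, eg_inv] at h2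
  rw [eg_mul, eg_mul]
  linarith

lemma step_b (ω : A.Ω) (g : D.A) (v : Fin D.n) (hv : D.β v = b) (s : Bool) :
    stepX D U b h A (ω, g) (v, s) =
      (aB D U b h A ω (QuotientGroup.mk g) (rhoP D b (lt D (v, s))), g) := by
  have h1 : rho D {b}ᶜ (lt D (v, s)) = 1 := by
    rw [rho_lt, if_neg]
    rw [Finset.mem_compl, Finset.mem_singleton]
    exact fun h2 => h2 hv
  refine Prod.ext rfl ?_
  show g * rho D {b}ᶜ (lt D (v, s)) = g
  rw [h1, mul_one]

lemma run_nil (x : A.Ω × D.A) : runX D U b h A [] x = x := rfl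

lemma run_cons (a : Fin D.n × Bool) (u : W (Fin D.n)) (x : A.Ω × D.A) :
    runX D U b h A (a :: u) x = runX D U b h A u (stepX D U b h A x a) := rfl

lemma run_append (u u' : W (Fin D.n)) (x : A.Ω × D.A) :
    runX D U b h A (u ++ u') x = runX D U b h A u' (runX D U b h A u x) := by
  simp [runX, List.foldl_append]

lemma run_nob (hS : S_SND) (u : W (Fin D.n)) (hu : ∀ a ∈ u, D.β a.1 ≠ b) (ω : A.Ω) (g : D.A) :
    runX D U b h A u (ω, g) = (ω, g * gEl D u) :=
  (hS D U b h A u (ω, g)).2.1 hu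

lemma run_flt (hS : S_SND) (hb : b ∉ U) (u : W (Fin D.n)) (ω : A.Ω) (g : D.A) :
    runX D U b h A (flt D U u) (ω, g) = (ω, g * rho D U (gEl D u)) := by
  rw [run_nob D U b h A hS, rho_gEl]
  intro a ha hab
  unfold flt at ha
  rw [List.mem_filter, decide_eq_true_eq, hab] at ha
  exact hb ha.2

lemma run_flt_inv (hS : S_SND) (hb : b ∉ U) (u : W (Fin D.n)) (ω : A.Ω) (g : D.A) :
    runX D U b h A (inv (flt D U u)) (ω, g) = (ω, g * (rho D U (gEl D u))⁻¹) := by
  rw [← flt_inv, run_flt D U b h A hS hb, gEl_inv, map_inv]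

lemma run_rep (n : ℕ) (v : Fin D.n) (hv : D.β v = b) (s : Bool) (ω : A.Ω) (g : D.A) :
    runX D U b h A (List.replicate n (v, s)) (ω, g) =
      (aB D U b h A ω (QuotientGroup.mk g) (rhoP D b (lt D (v, s)) ^ n), g) := by
  induction n generalizing ω with
  | zero => simp [run_nil, aB_one]
  | succ n ih => rw [List.replicate_succ, run_cons, step_b D U b h A ω g v hv, ih, aB_mul, pow_succ']

lemma run_y (y : W (Fin D.n)) (ω : A.Ω) (g : D.A) :
    runX D U b h A (flt D {b} y) (ω, g) =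
      (aB D U b h A ω (QuotientGroup.mk g) (rhoP D b (gEl D y)), g) := by
  induction y generalizing ω with
  | nil => rw [flt_nil, run_nil, gEl_nil, map_one, aB_one]
  | cons a u ih =>
    obtain ⟨v, s⟩ := a
    rw [gEl_cons, map_mul]
    by_cases hv : D.β v = b
    · have h1 : flt D {b} ((v, s) :: u) = (v, s) :: flt D {b} u := by
        unfold flt; rw [List.filter_cons_of_pos (by simpa using hv)]
      rw [h1, run_cons, step_b D U b h A ω g v hv, ih, aB_mul]
    · have h1 : flt D {b} ((v, s) :: u) = flt D {b} u := by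
        unfold flt; rw [List.filter_cons_of_neg (by simpa using hv)]
      have h2 : rhoP D b (lt D (v, s)) = 1 := by
        apply Subtype.ext
        show rho D {b} (lt D (v, s)) = 1
        rw [rho_lt, if_neg]
        rw [Finset.mem_singleton]
        exact hv
      rw [h1, ih, h2, one_mul]

lemma run_rep' (hS : S_SND) (n : ℕ) (w : Fin D.n) (hw : D.β w ≠ b) (s : Bool) (ω : A.Ω)
    (g : D.A) :
    runX D U b h A (List.replicate n (w, s)) (ω, g) = (ω, g * lt D (w, s) ^ n) := by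
  rw [run_nob D U b h A hS, gEl_repl]
  intro a ha
  rw [List.eq_of_mem_replicate ha]
  exact hw

lemma run_let (hS : S_SND) (k : ℕ) (v w : Fin D.n) (hv : D.β v = b) (hw : D.β w ≠ b)
    (a : ℕ × Bool) (ω : A.Ω) (g : D.A) :
    runX D U b h A (letF D k v w a) (ω, g) =
      (aB D U b h A ω (QuotientGroup.mk (g * gR D.m w ^ (a.1 % k))) (rhoP D b (lt D (v, a.2))),
        g) := by
  rw [letF, run_append, run_append, run_rep' D U b h A hS _ w hw, run_cons, run_nil,
    step_b D U b h A _ _ v hv, run_rep' D U b h A hS _ w hw, lt_true, lt_false]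
  refine Prod.ext rfl ?_
  show g * gR D.m w ^ (a.1 % k) * (gR D.m w)⁻¹ ^ (a.1 % k) = g
  rw [inv_pow, mul_inv_cancel_right]

lemma mk_pow (v w : Fin D.n) (hc : okL D U b v w) (n : ℕ) (g : D.A) :
    (QuotientGroup.mk (g * gR D.m w ^ n) : D.A ⧸ Hw D U b w) = QuotientGroup.mk g := by
  rw [eq_comm, QuotientGroup.eq, inv_mul_cancel_left, mem_Hw]
  refine ⟨(n : ℤ), 1, Subgroup.one_mem _, ?_⟩
  rw [mul_one, zpow_natCast, map_pow, rho_gR, if_pos hc.2.1]

lemma aB_let (v w : Fin D.n) (hc : okL D U b v w) (n : ℕ) (s : Bool) (ω : A.Ω) (g : D.A) :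
    aB D U b h A ω (QuotientGroup.mk (g * gR D.m w ^ n)) (rhoP D b (lt D (v, s))) =
      aL D U b h A ω v w hc (QuotientGroup.mk g)
        (sg (xx _ ((n : ℤ) + eg D (D.β w) (((QuotientGroup.mk g : D.A ⧸ Hw D U b w).out)⁻¹ *
          g))) s) := by
  rw [aB_eq_aL D U b h A ω v w hc, mk_pow D U b v w hc, eg_out D U b v w hc]
  have h1 := eg_gR_zpow D w (n : ℤ)
  rw [zpow_natCast] at h1
  rw [← mul_assoc, eg_mul D _ _ (gR D.m w ^ n), h1, add_comm]

lemma ev_cons {S G : Type} [Group G] (f : S → G) (a : S × Bool) (u : W S) :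
    ev f (a :: u) = sg (f a.1) a.2 * ev f u := by
  simp [ev, sg]

lemma ev_nil {S G : Type} [Group G] (f : S → G) : ev f ([] : W S) = 1 := rfl

lemma run_line (hS : S_SND) (v w : Fin D.n) (hc : okL D U b v w) (y : W ℕ) (ω : A.Ω) (g : D.A) :
    runX D U b h A (y.flatMap (letF D (kk D v w) v w)) (ω, g) =
      (aL D U b h A ω v w hc (QuotientGroup.mk g)
        (ev (fun r : ℕ => xx (kk D v w) (((r % kk D v w : ℕ) : ℤ) +
          eg D (D.β w) (((QuotientGroup.mk g : D.A ⧸ Hw D U b w).out)⁻¹ * g))) y), g) := by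
  induction y generalizing ω with
  | nil => simp [run_nil, ev_nil, aL_one]
  | cons a u ih =>
    rw [List.flatMap_cons, run_append, run_let D U b h A hS _ v w hc.1 hc.2.2.1,
      aB_let D U b h A v w hc, ih, aL_mul, ev_cons]

lemma mk_rho0 (g : D.A) :
    (QuotientGroup.mk (rho D U g) : D.A ⧸ H0 D U b) = QuotientGroup.mk g := by
  rw [QuotientGroup.eq, mem_H0, map_mul, map_inv, rho_rho, Finset.inter_self, inv_mul_cancel]
  exact Subgroup.one_mem _

lemma mk_rhow (w : Fin D.n) (g : D.A) :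
    (QuotientGroup.mk (rho D U g) : D.A ⧸ Hw D U b w) = QuotientGroup.mk g := by
  rw [QuotientGroup.eq, mem_Hw, map_mul, map_inv, rho_rho, Finset.inter_self, inv_mul_cancel]
  exact ⟨0, 1, Subgroup.one_mem _, by simp⟩

end

theorem t_RUNX (hsnd : S_SND) : S_RUNX := by
  intro D U b hb h A a ω ha
  rcases a with ⟨g, v, s, n⟩ | ⟨g, y⟩ | ⟨g, v, w, y⟩
  · have hv : D.β v = b := ha
    rw [valS, run_append, run_append, run_flt D U b h A hsnd hb, run_rep D U b h A _ v hv,
      run_flt_inv D U b h A hsnd hb, one_mul, mul_inv_cancel, mk_rho0]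
    rfl
  · rw [valS, run_append, run_append, run_flt D U b h A hsnd hb, run_y,
      run_flt_inv D U b h A hsnd hb, one_mul, mul_inv_cancel, mk_rho0]
    rfl
  · have hc : okL D U b v w := ha
    rw [valS, run_append, run_append, run_flt D U b h A hsnd hb, run_line D U b h A hsnd v w hc,
      run_flt_inv D U b h A hsnd hb, one_mul, mul_inv_cancel, mk_rhow]
    have h1 : eg D (D.β w) (((QuotientGroup.mk (gEl D g) : D.A ⧸ Hw D U b w).out)⁻¹ *
        rho D U (gEl D g)) = eg D (D.β w) (((QuotientGroup.mk (gEl D g) :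
          D.A ⧸ Hw D U b w).out)⁻¹ * gEl D g) := by
      rw [eg_mul, eg_mul, eg_rho, if_pos hc.2.1]
    rw [h1]
    have e : lyO D U b (.inr (.inr (g, v, w, y))) =
        ⟨Sum.inr ⟨(⟨(v, w), hc⟩ : LI D U b), QuotientGroup.mk (gEl D g)⟩,
          (ev (fun r : ℕ => xx (kk D v w) (((r % kk D v w : ℕ) : ℤ) +
            eg D (D.β w) (((QuotientGroup.mk (gEl D g) :
              D.A ⧸ Hw D U b w).out)⁻¹ * gEl D g))) y :
            FreeGroup (Fin (kk D v w)))⟩ := dif_pos hc
    rw [e]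
    rfl

end Pool.Agent.H671.BG.RUN
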